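import Pool.Agent.Q100.OA.Arc

/-!
# Affine involutions on the tangent lines of algebraic curves without inflectional asymptotes

The case of MP_ae5b4e_an in which all `σ_p` are the point reflections in `p` (outer billiards),
the leaves are the level sets of a real analytic function near `γ`, and `γ` lies on an algebraic
curve that has no inflectional asymptote.  Uses the starting theorems on the complexified curve
(projects CZ, FX and FZ).
-/

open Complex Set Filter Topology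

open scoped ContDiff

namespace Pool.Agent.Results.MP_ae5b4e_an.AlgebraicOvals

/-- `γ` is a closed plane curve with positive continuous radius of curvature `ρ`, parametrised by
its normal angle: `γ'(s) = ρ(s) i e^{is}`; the outer unit normal at `γ s` is `e^{is}`. -/
def IsOval (γ : ℝ → ℂ) (ρ : ℝ → ℝ) : Prop :=
  (∀ s, γ (s + 2 * Real.pi) = γ s) ∧ Continuous ρ ∧ (∀ s, 0 < ρ s) ∧
    ∀ s : ℝ, HasDerivAt γ ((ρ s : ℂ) * I * cexp (s * I)) s

/-- the point at signed distance `δ` from `γ s` on the tangent line at `γ s` -/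
noncomputable def tangentPoint (γ : ℝ → ℂ) (s δ : ℝ) : ℂ := γ s + δ * (I * cexp (s * I))

/-- `K(x, y)` is a nonconstant real analytic first integral of the outer billiard about `γ` near
`γ`: it is analytic and nonconstant on a connected neighbourhood `U` of `γ`, and for every `s` it
has the same value at the two points at distance `δ` from `γ s` on the tangent line at `γ s`, which
the reflection in `γ s` exchanges, for all small `δ > 0`. -/
def IsIntegralNear (γ : ℝ → ℂ) (K : ℝ → ℝ → ℝ) (U : Set (ℝ × ℝ)) : Prop :=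
  IsOpen U ∧ IsPreconnected U ∧ (∀ s, ((γ s).re, (γ s).im) ∈ U) ∧
    AnalyticOnNhd ℝ (Function.uncurry K) U ∧
    (∀ s : ℝ, ∃ ε > 0, ∀ δ : ℝ, 0 < δ → δ < ε →
      K (tangentPoint γ s δ).re (tangentPoint γ s δ).im
        = K (tangentPoint γ s (-δ)).re (tangentPoint γ s (-δ)).im) ∧
    ∃ z ∈ U, ∃ w ∈ U, K z.1 z.2 ≠ K w.1 w.2

/-- the same for an arc `y = f(x)`, `x0 < x < x1`, with slope `f'` -/
def IsIntegralNearGraph (f f' : ℝ → ℝ) (x0 x1 : ℝ) (K : ℝ → ℝ → ℝ) (U : Set (ℝ × ℝ)) : Prop :=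
  IsOpen U ∧ IsPreconnected U ∧ (∀ x ∈ Ioo x0 x1, (x, f x) ∈ U) ∧
    AnalyticOnNhd ℝ (Function.uncurry K) U ∧
    (∀ x ∈ Ioo x0 x1, ∃ ε > 0, ∀ δ : ℝ, 0 < δ → δ < ε →
      K (x + δ) (f x + f' x * δ) = K (x - δ) (f x - f' x * δ)) ∧
    ∃ z ∈ U, ∃ w ∈ U, K z.1 z.2 ≠ K w.1 w.2

/-- The complex curve `A(u, v) = 0` has an inflectional asymptote: a complex line
`α u + β v + γ = 0` and points `(u, v)` of the curve tending to infinity whose distance to the line
is `o(1 / |(u, v)|)`.  (A branch of the curve that is transversal to the line at infinity and has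
contact of order exactly two with its tangent line there approaches its asymptote exactly at the
rate `1 / |(u, v)|`.) -/
def HasInflectionalAsymptote (A : Polynomial (Polynomial ℂ)) : Prop :=
  ∃ α β γ : ℂ, (α ≠ 0 ∨ β ≠ 0) ∧ ∃ u v : ℕ → ℂ, (∀ n, A.evalEval (u n) (v n) = 0) ∧
    Tendsto (fun n => ‖u n‖ + ‖v n‖) atTop atTop ∧
    Tendsto (fun n => ‖α * u n + β * v n + γ‖ * (‖u n‖ + ‖v n‖)) atTop (𝓝 0)

/-- the conic of the homothetic pencil: the set of the points `(x, y)` with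
`a (x - u)² + 2 b (x - u) (y - v) + d (y - v)² = l`, where `c = u + iv` -/
def conic (c : ℂ) (a b d l : ℝ) : Set ℂ :=
  {x : ℂ | a * (x.re - c.re) ^ 2 + 2 * b * (x.re - c.re) * (x.im - c.im)
      + d * (x.im - c.im) ^ 2 = l}

lemma tangentPoint_re (γ : ℝ → ℂ) (s δ : ℝ) :
    (tangentPoint γ s δ).re = (γ s).re - δ * Real.sin s := by
  simp [tangentPoint, Complex.exp_ofReal_mul_I_re, Complex.exp_ofReal_mul_I_im]
  ring

lemma tangentPoint_im (γ : ℝ → ℂ) (s δ : ℝ) :
    (tangentPoint γ s δ).im = (γ s).im + δ * Real.cos s := by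
  simp [tangentPoint, Complex.exp_ofReal_mul_I_re, Complex.exp_ofReal_mul_I_im]

lemma oInt {γ : ℝ → ℂ} {K : ℝ → ℝ → ℝ} {U : Set (ℝ × ℝ)} (h : IsIntegralNear γ K U) :
    H719FX.OInt γ K U := by
  obtain ⟨h1, h2, h3, h4, h5, z, hz, w, hw, hne⟩ := h
  refine ⟨h1, h2, h3, h4, fun s => ?_, ?_⟩
  · obtain ⟨ε, hε, h⟩ := h5 s
    refine ⟨ε, hε, fun δ hδ hδ' => ?_⟩
    have := h δ hδ hδ'
    simpa [tangentPoint_re, tangentPoint_im, sub_eq_add_neg] using this
  · rintro ⟨c, hc⟩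
    exact hne ((hc z hz).trans (hc w hw).symm)

/-- Let `A` be a nonzero polynomial in two variables whose zero set has no inflectional asymptote.
(1) Let `γ` be a smooth oval with positive curvature on which `A` vanishes, and let `K` be a
nonconstant real analytic function near `γ` whose level sets are exchanged by the point
reflections of the tangent lines in the points of tangency.  Then `γ` is an ellipse, and `K` is
constant on every ellipse of the homothetic pencil of `γ` close to `γ` outside it.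
(2) Let `y = f(x)`, `x0 < x < x1`, be a real analytic arc with `f'' > 0` on which `A` vanishes and
near which there is such a function `K`.  Then the arc lies on a conic. -/
theorem result : ∀ A : Polynomial (Polynomial ℂ), A ≠ 0 → ¬ HasInflectionalAsymptote A →
    (∀ (γ : ℝ → ℂ) (ρ : ℝ → ℝ), IsOval γ ρ → ContDiff ℝ ∞ γ →
      (∀ s : ℝ, A.evalEval ((γ s).re : ℂ) ((γ s).im : ℂ) = 0) →
      ∀ (K : ℝ → ℝ → ℝ) (U : Set (ℝ × ℝ)), IsIntegralNear γ K U →
      ∃ (c : ℂ) (a b d : ℝ), 0 < a ∧ 0 < a * d - b ^ 2 ∧ Set.range γ = conic c a b d 1 ∧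
        ∃ η > 0, ∀ l : ℝ, 1 ≤ l → l < 1 + η → ∃ κ : ℝ, ∀ x ∈ conic c a b d l,
          (x.re, x.im) ∈ U ∧ K x.re x.im = κ) ∧
    (∀ (f : ℝ → ℝ) (x0 x1 : ℝ), x0 < x1 → AnalyticOnNhd ℝ f (Ioo x0 x1) →
      (∀ x ∈ Ioo x0 x1, 0 < deriv (deriv f) x) →
      (∀ x ∈ Ioo x0 x1, A.evalEval (x : ℂ) (f x : ℂ) = 0) →
      ∀ (K : ℝ → ℝ → ℝ) (U : Set (ℝ × ℝ)), IsIntegralNearGraph f (deriv f) x0 x1 K U →
      ∃ a b c d e g : ℝ, ¬ (a = 0 ∧ b = 0 ∧ c = 0 ∧ d = 0 ∧ e = 0 ∧ g = 0) ∧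
        ∀ x ∈ Ioo x0 x1, a * x ^ 2 + b * x * f x + c * f x ^ 2 + d * x + e * f x + g = 0) := by
  intro A hA hno
  refine ⟨?_, ?_⟩
  · rintro γ ρ ⟨h1, h2, h3, h4⟩ hsm hAγ K U hK
    obtain ⟨c, a, b, d, ha, hdet, hr, η, hη, hl⟩ := Q100.OA.main_oval
      ⟨h1, h2, h3, h4⟩ hsm A hA hAγ hno (oInt hK)
    refine ⟨c, a, b, d, ha, hdet, hr, η, hη, fun l hl1 hl2 => ?_⟩
    obtain ⟨κ, hκ⟩ := hl l hl1 hl2
    exact ⟨κ, fun x hx => hκ x.re x.im hx⟩
  · rintro f x0 x1 h01 hf hf2 hAf K U ⟨k1, k2, k3, k4, k5, z, hz, w, hw, hne⟩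
    refine Q100.OA.main_arc h01 hf hf2 A hA hAf hno k1 k2 k3 k4 k5 ?_
    rintro ⟨c, hc⟩
    exact hne ((hc z hz).trans (hc w hw).symm)

end Pool.Agent.Results.MP_ae5b4e_an.AlgebraicOvals
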