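import Pool.Agent.Q67.Pencil.Ellipse

/-!
# MP_ae5b4e_an: projective involutions on the tangent lines of all leaves

If the involutions of the tangent lines are projective for all leaves of the foliation (and not only
for one leaf), then the leaves lie on the conics of one pencil. The foliation is only `C¹`, and it
need not have closed leaves.
-/

namespace Pool.Agent.Results.MP_ae5b4e_an.AllTangentLines

open Set Topology

open Pool.Agent.Q67.Pencil (conic)

theorem result (U D : Set (ℝ × ℝ)) (hU : IsOpen U) (hUc : IsPreconnected U) (hD : U ⊆ closure D)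
    (f : ℝ × ℝ → ℝ) (hf : ContDiffOn ℝ 1 f U) (hreg : ∀ p ∈ U, fderiv ℝ f p ≠ 0)
    (hloc : ∀ q ∈ U, ∃ V ∈ 𝓝 q, ∀ p ∈ V, ∀ v : ℝ × ℝ, v ≠ 0 → fderiv ℝ f p v = 0 →
      (segment ℝ p (p + v) ⊆ V → f p < f (p + v)) ∧
      (p ∈ D → ∃ κ : ℝ, ∀ s t : ℝ, 0 < s → 0 < t → segment ℝ (p - s • v) (p + t • v) ⊆ V →
        f (p - s • v) = f (p + t • v) → 1 / t - 1 / s = κ)) :
    ∃ Q₁ Q₂ : Fin 6 → ℝ, LinearIndependent ℝ ![Q₁, Q₂] ∧ ∀ w ∈ U, ∃ R : Fin 6 → ℝ, R ≠ 0 ∧
      (∃ a b : ℝ, R = a • Q₁ + b • Q₂) ∧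
      (∀ z ∈ connectedComponentIn (U ∩ {z | f z = f w}) w, conic R z = 0) ∧
      (IsCompact (connectedComponentIn (U ∩ {z | f z = f w}) w) → 0 < 4 * R 3 * R 5 - R 4 ^ 2) := by
  have H : Pool.Agent.Q67.Pencil.Hyp f U :=
    { isOpen := hU
      cd := hf
      reg := hreg
      good := by
        intro q hq
        obtain ⟨V, hV, h⟩ := hloc q hq
        set V' := interior V ∩ U with hV'
        have hV'o : IsOpen V' := isOpen_interior.inter hU
        have hsub : V' ⊆ V := fun z hz => interior_subset hz.1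
        refine ⟨V', hV'o.mem_nhds ⟨mem_interior_iff_mem_nhds.mpr hV, hq⟩, ?_⟩
        apply Pool.Agent.Q67.Pencil.good_of_dense
        · intro p hp v hv h0 hseg
          exact (h p (hsub hp) v hv h0).1 (hseg.trans hsub)
        · exact fun z hz => hreg z hz.2
        · intro z hz
          have h1 : z ∈ closure (V' ∩ D) := by
            rw [_root_.mem_closure_iff]
            intro O hO hzO
            obtain ⟨y, hy1, hy2⟩ := (_root_.mem_closure_iff.mp (hD hz.2)) (O ∩ V') (hO.inter hV'o)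
              ⟨hzO, hz⟩
            exact ⟨y, hy1.1, hy1.2, hy2⟩
          refine closure_mono ?_ h1
          rintro p ⟨hp, hpD⟩
          refine ⟨hp, fun v hv h0 => ?_⟩
          obtain ⟨κ, hκ⟩ := (h p (hsub hp) v hv h0).2 hpD
          exact ⟨κ, fun s t hs ht hseg => hκ s t hs ht (hseg.trans hsub)⟩ }
  rcases U.eq_empty_or_nonempty with hUe | hUn
  · refine ⟨![1, 0, 0, 0, 0, 0], ![0, 1, 0, 0, 0, 0], ?_, fun w hw => by simp [hUe] at hw⟩
    rw [LinearIndependent.pair_iff]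
    intro s t hst
    have h0 := congrFun hst 0
    have h1 := congrFun hst 1
    simp at h0 h1
    exact ⟨h0, h1⟩
  obtain ⟨Q₁, Q₂, hli, hP⟩ := H.pencil hUc hUn
  refine ⟨Q₁, Q₂, hli, fun w hw => ?_⟩
  obtain ⟨R, hRS, hR0, hR⟩ := hP w hw
  have hleaf := H.leaf hP hw hR
  obtain ⟨a, b, hab⟩ := Submodule.mem_span_pair.mp hRS
  refine ⟨R, hR0, ⟨a, b, hab.symm⟩, fun z hz => ?_, fun hcomp => ?_⟩
  · exact (hleaf z hz).self_of_nhds rfl
  · exact H.toC.ellipse hw hcomp hR0 hleaf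

end Pool.Agent.Results.MP_ae5b4e_an.AllTangentLines
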