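import Pool.Agent.Q67.Pencil.AccumPencil

/-!
# MP_ae5b4e_an: projective involutions on the tangent lines of infinitely many leaves

Analytic foliations: if near one point the germs of the involutions of the tangent lines are
projective for infinitely many leaves which accumulate there, then all leaves lie on the conics of
one pencil.
-/

namespace Pool.Agent.Results.MP_ae5b4e_an.InfinitelyManyLeaves

open Set Filter Topology

open Pool.Agent.Q67.Pencil (conic)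

theorem result (U : Set (ℝ × ℝ)) (hU : IsOpen U) (hUc : IsPreconnected U) (f : ℝ × ℝ → ℝ)
    (hf : AnalyticOnNhd ℝ f U) (hreg : ∀ p ∈ U, fderiv ℝ f p ≠ 0)
    (hconv : ∀ q ∈ U, ∃ V ∈ 𝓝 q, ∀ p ∈ V, ∀ v : ℝ × ℝ, v ≠ 0 → fderiv ℝ f p v = 0 →
      segment ℝ p (p + v) ⊆ V → f p < f (p + v))
    (q₀ : ℝ × ℝ) (hq₀ : q₀ ∈ U) (E : Set ℝ) (hE : AccPt (f q₀) (𝓟 E))
    (hproj : ∀ᶠ p in 𝓝 q₀, f p ∈ E → ∀ v : ℝ × ℝ, v ≠ 0 → fderiv ℝ f p v = 0 →
      ∃ κ : ℝ, ∃ ε > 0, ∀ s t : ℝ, 0 < s → 0 < t → s < ε → t < ε →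
        f (p - s • v) = f (p + t • v) → 1 / t - 1 / s = κ) :
    ∃ Q₁ Q₂ : Fin 6 → ℝ, LinearIndependent ℝ ![Q₁, Q₂] ∧ ∀ w ∈ U, ∃ R : Fin 6 → ℝ, R ≠ 0 ∧
      (∃ a b : ℝ, R = a • Q₁ + b • Q₂) ∧
      (∀ z ∈ connectedComponentIn (U ∩ {z | f z = f w}) w, conic R z = 0) ∧
      (IsCompact (connectedComponentIn (U ∩ {z | f z = f w}) w) → 0 < 4 * R 3 * R 5 - R 4 ^ 2) := by
  obtain ⟨V, hV, hC⟩ := hconv q₀ hq₀
  obtain ⟨W, hWo, hWne, hWU, Q₁, Q₂, hli, hW⟩ :=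
    Pool.Agent.Q67.Pencil.accum_pencil hU hf hreg hq₀ (inter_mem hV hproj)
      (Pool.Agent.Q67.Pencil.Cvx.mono (V := V) hC inter_subset_left) hE (fun p hp hpE => hp.2 hpE)
  have hj := Pool.Agent.Q67.Pencil.jac_eq_zero hU hUc hf hreg hWo hWne hWU hW
  have H : Pool.Agent.Q67.Pencil.HypC f U :=
    { isOpen := hU
      cd := fun z hz => (hf z hz).contDiffAt.contDiffWithinAt
      reg := hreg
      cvx := hconv }
  refine ⟨Q₁, Q₂, hli, fun w hw => ?_⟩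
  obtain ⟨R, hR0, hab, hR⟩ := Pool.Agent.Q67.Pencil.exists_onLeaf hU hf hreg hli hj hw
  have hleaf := Pool.Agent.Q67.Pencil.onLeaf_of_component hU hf hreg hw hR
  exact ⟨R, hR0, hab, fun z hz => (hleaf z hz).self_of_nhds rfl,
    fun hcomp => H.ellipse hw hcomp hR0 hleaf⟩

end Pool.Agent.Results.MP_ae5b4e_an.InfinitelyManyLeaves
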