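import Pool.Agent.Q66.TwoEll

/-!
# MP_ae5b4e_an: two elliptic leaves force a pencil of ellipses

`Y` is a function whose level sets `{Y = c}`, `0 ≤ c ≤ 1`, are closed convex curves foliating a
(possibly very thin) closed collar of the unit circle on its exterior side (`IsCollar Y`), and
every tangent involution `σ_p` (`‖p‖ = 1`) is projective on the whole collar
(`ProjectiveInvolution Y p`).  Nothing is assumed on the dependence of `σ_p` on `p`.

Suppose that one further leaf `{Y = c}`, `0 < c ≤ 1`, is a conic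
`q(z) = d |z|² + Re (e z²) + Re (b z) + a = 0` (the general real quadratic polynomial in the plane).
Then every leaf is an ellipse (`|μ| ‖e‖ < |λ + μ d|`) of the pencil generated by the unit circle
and that conic.
-/

open Complex
open Pool.Agent.H719R2.PIB

theorem Pool.Agent.Results.MP_ae5b4e_an.TwoEllipticLeaves.result (Y : ℂ → ℝ)
    (hY : IsCollar Y) (hp : ∀ p : ℂ, ‖p‖ = 1 → ProjectiveInvolution Y p)
    (c : ℝ) (h0 : 0 < c) (h1 : c ≤ 1) (d a : ℝ) (e b : ℂ)
    (hE : {z : ℂ | Y z = c} = {z : ℂ | d * normSq z + (e * z ^ 2).re + (b * z).re + a = 0}) :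
    ∀ c', 0 ≤ c' → c' ≤ 1 → ∃ lam mu : ℝ, |mu| * ‖e‖ < |lam + mu * d| ∧
      {z : ℂ | Y z = c'} = {z : ℂ | lam * (normSq z - 1) +
        mu * (d * normSq z + (e * z ^ 2).re + (b * z).re + a) = 0} :=
  Pool.Agent.Q66.TwoEll.leaves hY hp h0 h1 hE
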